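import Mathlib
import Pool.Agent.W926.PS.Stm

/-!
Task PS-LOW (helper156): part L from the core.
-/

set_option autoImplicit false

namespace Pool.Agent.W156.PSLow

open W926.PS Finset

lemma sep_ne {β : Type} {k : β → ℕ} {a b c d : β} (h : Sep k a b c d) :
    a ≠ c ∧ a ≠ d ∧ b ≠ c ∧ b ≠ d := by
  rcases h with ⟨h1, h2, h3, h4⟩ | ⟨h1, h2, h3, h4⟩ <;>
  · refine ⟨?_, ?_, ?_, ?_⟩ <;> rintro rfl <;> omega

lemma six_inj {β : Type} {A B : Fin 3 → β} (h0 : ∀ u, A u ≠ B u)
    (h : ∀ u v, u ≠ v → A u ≠ A v ∧ A u ≠ B v ∧ B u ≠ A v ∧ B u ≠ B v) :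
    Function.Injective (six A B) := by
  have h01 := h 0 1 (by decide)
  have h02 := h 0 2 (by decide)
  have h10 := h 1 0 (by decide)
  have h12 := h 1 2 (by decide)
  have h20 := h 2 0 (by decide)
  have h21 := h 2 1 (by decide)
  have e0 := h0 0
  have e1 := h0 1
  have e2 := h0 2
  obtain ⟨p1, p2, p3, p4⟩ := h01
  obtain ⟨q1, q2, q3, q4⟩ := h02
  obtain ⟨r1, r2, r3, r4⟩ := h10
  obtain ⟨s1, s2, s3, s4⟩ := h12
  obtain ⟨t1, t2, t3, t4⟩ := h20
  obtain ⟨w1, w2, w3, w4⟩ := h21
  intro u v huv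
  fin_cases u <;> fin_cases v <;> first | rfl | (exfalso; simp [six] at huv; first
    | exact p1 huv | exact p2 huv | exact p3 huv | exact p4 huv
    | exact q1 huv | exact q2 huv | exact q3 huv | exact q4 huv
    | exact r1 huv | exact r2 huv | exact r3 huv | exact r4 huv
    | exact s1 huv | exact s2 huv | exact s3 huv | exact s4 huv
    | exact t1 huv | exact t2 huv | exact t3 huv | exact t4 huv
    | exact w1 huv | exact w2 huv | exact w3 huv | exact w4 huv
    | exact e0 huv | exact e1 huv | exact e2 huv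
    | exact e0 huv.symm | exact e1 huv.symm | exact e2 huv.symm)

theorem low (hC : S_CORE) (hR : S_RAM) (h20 : S_L20) : S_LOW := by
  intro C
  obtain ⟨q, hq⟩ := hC (C + 1)
  obtain ⟨N, hN⟩ := hR (Fin q → Bool × Bool × Bool × Bool)
  obtain ⟨m₀, hqm, hm⟩ := hq N
  refine ⟨2 ^ (m₀ ^ 2 + 1) + 6, fun n hn P hP => ?_⟩
  rcases P.eq_empty_or_nonempty with rfl | hPne
  · have h6 : 6 ≤ n := le_trans (Nat.le_add_left 6 _) hn
    refine ⟨fun i => ⟨i, by omega⟩, ?_, by simp⟩
    intro i k h
    simpa [Fin.ext_iff] using h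
  · classical
    obtain ⟨p₀, hp₀⟩ := hPne
    set m := max P.card m₀ with hmdef
    have hmP : P.card ≤ m := le_max_left _ _
    have hm0 : m₀ ≤ m := le_max_right _ _
    have hlog : m₀ ^ 2 + 1 ≤ Nat.log 2 n := by
      apply Nat.le_log_of_pow_le (by norm_num)
      omega
    have hmn : m ^ 2 ≤ (C + 1) * Nat.log 2 n := by
      rcases le_total P.card m₀ with h | h
      · have : m = m₀ := by rw [hmdef]; exact max_eq_right h
        rw [this]; nlinarith
      · have : m = P.card := by rw [hmdef]; exact max_eq_left h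
        rw [this]; nlinarith
    -- surjection onto `P`
    obtain ⟨ρ, hρP, hρs⟩ : ∃ ρ : Fin m → Equiv.Perm (Fin n), (∀ l, ρ l ∈ P) ∧
        ∀ σ ∈ P, ∃ l, ρ l = σ := by
      refine ⟨fun l => if h : (l : ℕ) < P.card then (P.equivFin.symm ⟨l, h⟩ : P) else p₀, ?_, ?_⟩
      · intro l
        by_cases h : (l : ℕ) < P.card
        · simp only [h, dif_pos]; exact (P.equivFin.symm ⟨l, h⟩).2
        · simp only [h, dif_neg, not_false_iff]; exact hp₀
      · intro σ hσ
        refine ⟨⟨P.equivFin ⟨σ, hσ⟩, lt_of_lt_of_le (P.equivFin ⟨σ, hσ⟩).2 hmP⟩, ?_⟩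
        simp
    set key : Fin m → Fin n → ℕ := fun l y => (ρ l y : ℕ) with hkey
    have hinj : ∀ l, Function.Injective (key l) := by
      intro l y z h
      exact (ρ l).injective (Fin.ext h)
    obtain ⟨E, a, b, hE, hab, hST, hSep⟩ := hm m hm0 n hmn key hinj
    have hmpos : 0 < m := by omega
    obtain ⟨e, he⟩ : ∃ e : Fin q → Fin m, ∀ l ∈ E, ∃ s, e s = l := by
      refine ⟨fun s => if h : (s : ℕ) < E.card then (E.equivFin.symm ⟨s, h⟩ : E) else ⟨0, hmpos⟩, ?_⟩
      intro l hl
      refine ⟨⟨E.equivFin ⟨l, hl⟩, lt_of_lt_of_le (E.equivFin ⟨l, hl⟩).2 hE⟩, ?_⟩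
      simp
    obtain ⟨i, j, k, hij, hjk, h1, h2⟩ := hN (fun i k s =>
      (decide (key (e s) (a i) < key (e s) (a k)), decide (key (e s) (a i) < key (e s) (b k)),
        decide (key (e s) (b i) < key (e s) (a k)), decide (key (e s) (b i) < key (e s) (b k))))
    set idx : Fin 3 → Fin N := ![i, j, k] with hidx
    have hidxne : ∀ u v, u ≠ v → idx u ≠ idx v := by
      have a1 : i ≠ j := hij.ne
      have a2 : j ≠ k := hjk.ne
      have a3 : i ≠ k := (hij.trans hjk).ne
      intro u v huv
      fin_cases u <;> fin_cases v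
      · exact absurd rfl huv
      · exact a1
      · exact a3
      · exact a1.symm
      · exact absurd rfl huv
      · exact a2
      · exact a3.symm
      · exact a2.symm
      · exact absurd rfl huv
    obtain ⟨l₀, hl₀⟩ : ∃ l, l ∉ E := by
      by_contra hcon
      push Not at hcon
      have : E = univ := by ext l; simp [hcon l]
      rw [this, card_univ, Fintype.card_fin] at hE
      omega
    have hx : Function.Injective (six (fun u => a (idx u)) (fun u => b (idx u))) := by
      apply six_inj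
      · intro u; exact hab _
      · intro u v huv
        exact sep_ne (hSep l₀ hl₀ _ _ (hidxne u v huv))
    refine ⟨_, hx, ?_⟩
    have hL := h20 (Fin n) (Fin m) key (fun u => a (idx u)) (fun u => b (idx u)) hinj hx ?_
    · refine le_trans (card_le_card ?_) hL
      intro f hf
      rw [mem_image] at hf
      obtain ⟨σ, hσ, rfl⟩ := hf
      obtain ⟨l, rfl⟩ := hρs σ hσ
      exact mem_image.2 ⟨l, mem_univ _, rfl⟩
    · intro l
      refine ⟨?_, ?_⟩
      · rcases hST l with h | h
        · exact Or.inl fun u => h _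
        · exact Or.inr fun u => h _
      · by_cases hl : l ∈ E
        · right
          obtain ⟨s, rfl⟩ := he l hl
          have g1 := congrFun h1 s
          have g2 := congrFun h2 s
          simp only [Prod.mk.injEq, decide_eq_decide] at g1 g2
          obtain ⟨g11, g12, g13, g14⟩ := g1
          obtain ⟨g21, g22, g23, g24⟩ := g2
          exact ⟨⟨g11, g11.trans g21⟩, ⟨g12, g12.trans g22⟩, ⟨g13, g13.trans g23⟩,
            ⟨g14, g14.trans g24⟩⟩
        · left
          intro u v huv
          exact hSep l hl _ _ (hidxne u v huv)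

end Pool.Agent.W156.PSLow
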